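import Mathlib

/-!
Shift graphs: large chromatic number and large odd girth.
-/

set_option autoImplicit false

namespace Pool.Agent.Y387.CR

/-- increasing `(k + 1)`-tuples -/
abbrev Tup (n k : ℕ) : Type := {a : Fin (k + 1) → Fin n // StrictMono a}

/-- `b` is the tuple `a` without the first entry and with a new last entry -/
def Shift {n k : ℕ} (a b : Tup n k) : Prop :=
  a.1 0 < b.1 0 ∧ ∀ i : Fin k, b.1 i.castSucc = a.1 i.succ

/-- the shift graph -/
def sh (n k : ℕ) : SimpleGraph (Tup n k) where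
  Adj a b := Shift a b ∨ Shift b a
  symm := ⟨fun _ _ h => h.symm⟩
  loopless := ⟨fun a h => by
    rcases h with h | h
    · exact lt_irrefl _ h.1
    · exact lt_irrefl _ h.1⟩

theorem shift_color (k : ℕ) : ∀ (α : Type) [Finite α], ∃ n, ∀ f : Tup n k → α,
    ∃ a b, Shift a b ∧ f a = f b := by
  induction k with
  | zero =>
    intro α _
    refine ⟨Nat.card α + 1, fun f => ?_⟩
    let e : Fin (Nat.card α + 1) → Tup (Nat.card α + 1) 0 := fun i =>
      ⟨fun _ => i, fun a b h => by
        have h1 := Fin.val_lt_of_le a le_rfl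
        have h2 := Fin.val_lt_of_le b le_rfl
        have h3 : a.1 < b.1 := h
        omega⟩
    have hni : ¬ Function.Injective (fun i => f (e i)) := by
      intro hinj
      have := Nat.card_le_card_of_injective _ hinj
      simp at this
    rw [Function.Injective] at hni
    push Not at hni
    obtain ⟨i, j, hij, hne⟩ := hni
    rcases lt_or_gt_of_ne hne with h | h
    · exact ⟨e i, e j, ⟨h, fun x => x.elim0⟩, hij⟩
    · exact ⟨e j, e i, ⟨h, fun x => x.elim0⟩, hij.symm⟩
  | succ k ih =>
    intro α _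
    obtain ⟨n, hn⟩ := ih (Set α)
    refine ⟨n, fun f => ?_⟩
    obtain ⟨a, b, hab, hF⟩ := hn (fun a => {x | ∃ e : Tup n (k + 1),
      (∀ i : Fin (k + 1), e.1 i.castSucc = a.1 i) ∧ f e = x})
    have hlast : a.1 (Fin.last k) < b.1 (Fin.last k) := by
      rcases k with _ | k
      · exact hab.1
      · have h1 := hab.2 (Fin.last k)
        rw [Fin.succ_last] at h1
        rw [← h1]
        exact b.2 (Fin.castSucc_lt_last _)
    let e : Tup n (k + 1) := ⟨Fin.snoc (α := fun _ => Fin n) a.1 (b.1 (Fin.last k)), by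
      rw [Fin.strictMono_iff_lt_succ]
      intro i
      rw [Fin.snoc_castSucc]
      refine Fin.lastCases ?_ (fun j => ?_) i
      · rw [Fin.succ_last, Fin.snoc_last]
        exact hlast
      · rw [Fin.succ_castSucc, Fin.snoc_castSucc]
        exact a.2 (Fin.castSucc_lt_succ)⟩
    have he1 : ∀ i : Fin (k + 1), e.1 i.castSucc = a.1 i := fun i =>
      Fin.snoc_castSucc (α := fun _ => Fin n) _ _ _
    have he2 : ∀ i : Fin (k + 1), e.1 i.succ = b.1 i := by
      intro i
      refine Fin.lastCases ?_ (fun j => ?_) i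
      · rw [Fin.succ_last]
        exact Fin.snoc_last (α := fun _ => Fin n) _ _
      · rw [Fin.succ_castSucc, he1, hab.2 j]
    have h1 : f e ∈ {x | ∃ e : Tup n (k + 1),
      (∀ i : Fin (k + 1), e.1 i.castSucc = a.1 i) ∧ f e = x} := ⟨e, he1, rfl⟩
    rw [hF] at h1
    obtain ⟨e', he', hfe⟩ := h1
    refine ⟨e, e', ⟨?_, ?_⟩, hfe.symm⟩
    · have h2 := he1 0
      have h3 := he' 0
      rw [Fin.castSucc_zero] at h2 h3
      rw [h2, h3]
      exact hab.1
    · intro i
      rw [he', he2]

theorem walk_index {n k : ℕ} {a b : Tup n k} (w : (sh n k).Walk a b) :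
    ∃ F B : ℕ, F + B = w.length ∧ ∀ i (_ : F ≤ i) (hB : i + B ≤ k),
      a.1 ⟨i, by omega⟩ = b.1 ⟨i + B - F, by omega⟩ := by
  induction w with
  | nil =>
    refine ⟨0, 0, rfl, fun i _ _ => rfl⟩
  | @cons a a' b h p ih =>
    obtain ⟨F, B, hFB, hi⟩ := ih
    rcases h with h | h
    · refine ⟨F + 1, B, by rw [SimpleGraph.Walk.length_cons, ← hFB]; ring, ?_⟩
      intro i hF hB
      obtain ⟨j, rfl⟩ : ∃ j, i = j + 1 := ⟨i - 1, by omega⟩
      have h1 := hi j (by omega) (by omega)
      have h2 := h.2 ⟨j, by omega⟩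
      have e1 : (⟨j, by omega⟩ : Fin k).succ = ⟨j + 1, by omega⟩ := rfl
      have e2 : (⟨j, by omega⟩ : Fin k).castSucc = ⟨j, by omega⟩ := rfl
      rw [e1, e2] at h2
      have e3 : (⟨j + B - F, by omega⟩ : Fin (k + 1)) = ⟨j + 1 + B - (F + 1), by omega⟩ :=
        Fin.ext (by show j + B - F = j + 1 + B - (F + 1); omega)
      rw [← h2, h1, e3]
    · refine ⟨F, B + 1, by rw [SimpleGraph.Walk.length_cons, ← hFB]; ring, ?_⟩
      intro i hF hB
      have h1 := hi (i + 1) (by omega) (by omega)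
      have h2 := h.2 ⟨i, by omega⟩
      have e1 : (⟨i, by omega⟩ : Fin k).succ = ⟨i + 1, by omega⟩ := rfl
      have e2 : (⟨i, by omega⟩ : Fin k).castSucc = ⟨i, by omega⟩ := rfl
      rw [e1, e2] at h2
      have e3 : (⟨i + 1 + B - F, by omega⟩ : Fin (k + 1)) = ⟨i + (B + 1) - F, by omega⟩ :=
        Fin.ext (by show i + 1 + B - F = i + (B + 1) - F; omega)
      rw [h2, h1, e3]

theorem odd_walk {n k : ℕ} {a : Tup n k} (w : (sh n k).Walk a a) (h : Odd w.length) :
    k < w.length := by
  by_contra hle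
  push Not at hle
  obtain ⟨F, B, hFB, hi⟩ := walk_index w
  have h1 := hi F le_rfl (by omega)
  have h2 := a.2.injective h1
  have h3 : F = F + B - F := congrArg Fin.val h2
  have h4 : F = B := by omega
  rw [← hFB, h4] at h
  exact (Nat.not_odd_iff_even.2 ⟨B, rfl⟩) h

/-- for all `g` and all finite sets `α` there is a finite graph without odd closed walks of
length at most `g` and without a proper colouring by `α` -/
theorem exists_odd_girth (g : ℕ) (α : Type) [Finite α] : ∃ (U : Type) (_ : Finite U)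
    (K : SimpleGraph U), (∀ (u : U) (w : K.Walk u u), Odd w.length → g < w.length) ∧
      ∀ f : U → α, ∃ u v, K.Adj u v ∧ f u = f v := by
  obtain ⟨n, hn⟩ := shift_color g α
  refine ⟨Tup n g, inferInstance, sh n g, fun u w hw => odd_walk w hw, fun f => ?_⟩
  obtain ⟨a, b, hab, hf⟩ := hn f
  exact ⟨a, b, Or.inl hab, hf⟩

end Pool.Agent.Y387.CR
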