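import Pool.Agent.Y387.CR.Rec
import Pool.Agent.Y387.CR.Shift

/-!
Products with graphs of large odd girth; universal bipartite graphs.
-/

set_option autoImplicit false

namespace Pool.Agent.Y387.CR

open Finset

universe u

/-- tensor product -/
def tens {W U : Type} (H : SimpleGraph W) (K : SimpleGraph U) : SimpleGraph (W × U) where
  Adj a b := H.Adj a.1 b.1 ∧ K.Adj a.2 b.2
  symm := ⟨fun _ _ h => ⟨h.1.symm, h.2.symm⟩⟩
  loopless := ⟨fun a h => H.loopless.irrefl a.1 h.1⟩

theorem tens_odd {W U : Type} (H : SimpleGraph W) (K : SimpleGraph U) (g : ℕ)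
    (hK : ∀ (u : U) (w : K.Walk u u), Odd w.length → g < w.length) (x : W × U)
    (w : (tens H K).Walk x x) (hw : Odd w.length) : g < w.length := by
  have f : tens H K →g K := ⟨Prod.snd, fun h => h.2⟩
  have h1 := hK _ (w.map (⟨Prod.snd, fun h => h.2⟩ : tens H K →g K))
    (by rwa [SimpleGraph.Walk.length_map])
  rwa [SimpleGraph.Walk.length_map] at h1

theorem tens_free {W U : Type} (H : SimpleGraph W) (K : SimpleGraph U) {V : Type*}
    (G : SimpleGraph V) (κ : V → Bool) (hκ : ∀ u v, G.Adj u v → κ u ≠ κ v) (r : ℕ)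
    (hH : ∀ c : W → Fin r, ¬ Free H G c)
    (hK : ∀ f : U → (W → Fin r), ∃ u v, K.Adj u v ∧ f u = f v) (c : W × U → Fin r) :
    ¬ Free (tens H K) G c := by
  intro hc
  obtain ⟨u, v, huv, hf⟩ := hK (fun u w => c (w, u))
  apply hH (fun w => c (w, u))
  intro i
  refine ⟨fun e => ?_⟩
  have hcol : ∀ x, c ((e x).1, if κ x then u else v) = i := by
    intro x
    have h1 : c ((e x).1, u) = i := (e x).2
    have h2 : c ((e x).1, u) = c ((e x).1, v) := congrFun hf (e x).1
    split_ifs
    · exact h1
    · rw [← h2]; exact h1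
  refine (hc i).false ⟨⟨fun x => ⟨((e x).1, if κ x then u else v), hcol x⟩, ?_⟩, ?_⟩
  · intro x y hxy
    have h1 : ((e x).1, if κ x then u else v) = ((e y).1, if κ y then u else v) := by
      simpa using hxy
    exact e.injective (Subtype.ext (congrArg Prod.fst h1))
  · intro x y
    have hE : H.Adj (e x).1 (e y).1 ↔ G.Adj x y := e.map_adj_iff
    constructor
    · intro h
      exact hE.1 (show H.Adj (e x).1 (e y).1 from h.1)
    · intro h
      refine ⟨hE.2 h, ?_⟩
      have h1 := hκ x y h
      show K.Adj (if κ x then u else v) (if κ y then u else v)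
      by_cases hx : κ x <;> by_cases hy : κ y
      · exact absurd (by rw [hx, hy]) h1
      · simp only [hx, hy, if_true]
        exact huv
      · simp only [hx, hy, if_true]
        exact huv.symm
      · rw [Bool.not_eq_true] at hx hy
        exact absurd (by rw [hx, hy]) h1

/-- a bipartite graph which contains all bipartite graphs with at most `d` vertices -/
def uni (d : ℕ) : SimpleGraph (Fin d ⊕ (Finset (Fin d) × Fin d)) where
  Adj a b := match a, b with
    | Sum.inl x, Sum.inr y => x ∈ y.1
    | Sum.inr y, Sum.inl x => x ∈ y.1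
    | _, _ => False
  symm := ⟨by
    rintro (u | S) (v | S') h
    · exact h
    · exact h
    · exact h
    · exact h⟩
  loopless := ⟨by
    rintro (u | S) h
    · exact h
    · exact h⟩

theorem uni_bip (d : ℕ) : ∀ a b, (uni d).Adj a b → Sum.isLeft a ≠ Sum.isLeft b := by
  rintro (u | S) (v | S') h
  · exact h.elim
  · simp
  · simp
  · exact h.elim

theorem bip_fun {V : Type*} (G : SimpleGraph V) (hG : G.IsBipartite) :
    ∃ κ : V → Bool, ∀ u v, G.Adj u v → κ u ≠ κ v := by
  obtain ⟨κ⟩ := hG
  refine ⟨fun v => decide (κ v = 0), ?_⟩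
  intro u v huv
  have h1 := κ.valid huv
  intro h2
  apply h1
  have h2' : decide (κ u = 0) = decide (κ v = 0) := h2
  rw [decide_eq_decide] at h2'
  have h3 : ∀ a b : Fin 2, (a = 0 ↔ b = 0) → a = b := by decide
  exact h3 _ _ h2'

theorem uni_embed {V : Type*} [Finite V] (G : SimpleGraph V) (hG : G.IsBipartite) (d : ℕ)
    (hd : Nat.card V ≤ d) : Nonempty (G ↪g uni d) := by
  classical
  have := Fintype.ofFinite V
  obtain ⟨κ, hκ⟩ := bip_fun G hG
  obtain ⟨φ⟩ : Nonempty (V ↪ Fin d) := by
    apply Function.Embedding.nonempty_of_card_le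
    rw [Fintype.card_fin, ← Nat.card_eq_fintype_card]
    exact hd
  refine ⟨⟨⟨fun v => if κ v then Sum.inl (φ v) else
    Sum.inr ((univ.filter (fun x => G.Adj x v)).image φ, φ v), ?_⟩, ?_⟩⟩
  · intro x y hxy
    by_cases hx : κ x <;> by_cases hy : κ y <;> simp only [hx, hy, if_true] at hxy
    · exact φ.injective (Sum.inl_injective hxy)
    · simp at hxy
    · simp at hxy
    · have h1 : (univ.filter (fun z => G.Adj z x)).image φ =
          (univ.filter (fun z => G.Adj z y)).image φ ∧ x = y := by simpa using hxy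
      exact h1.2
  · intro x y
    have hm : ∀ x y, φ x ∈ (univ.filter (fun x => G.Adj x y)).image φ ↔ G.Adj x y := by
      intro x y
      rw [mem_image]
      constructor
      · rintro ⟨z, hz, hzx⟩
        rw [φ.injective hzx] at hz
        exact (mem_filter.1 hz).2
      · intro h
        exact ⟨x, mem_filter.2 ⟨mem_univ _, h⟩, rfl⟩
    by_cases hx : κ x <;> by_cases hy : κ y <;>
      simp only [Function.Embedding.coeFn_mk, hx, hy, if_true]
    · constructor
      · intro h
        exact h.elim
      · intro h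
        exact (hκ x y h (by rw [hx, hy])).elim
    · exact hm x y
    · exact (hm y x).trans (G.adj_comm y x)
    · constructor
      · intro h
        exact h.elim
      · intro h
        refine (hκ x y h ?_).elim
        rw [Bool.not_eq_true] at hx hy
        rw [hx, hy]

theorem exists_univ (l d g : ℕ) (hl : 2 ≤ l) : ∃ (W : Type) (_ : Finite W) (H : SimpleGraph W),
    (∀ (x : W) (w : H.Walk x x), Odd w.length → g < w.length) ∧
    (∃ c : W → Fin l, ∀ u v, H.Adj u v → c u ≠ c v) ∧
    ∀ c : W → Fin (l - 1), ∃ i, ∀ (V : Type u) [Finite V] (G : SimpleGraph V), G.IsBipartite →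
      Nat.card V ≤ d → Nonempty (G ↪g H.induce {w | c w = i}) := by
  classical
  obtain ⟨r, rfl⟩ : ∃ r, l = r + 1 := ⟨l - 1, by omega⟩
  obtain ⟨W, _, H, -, -, ⟨p, hp⟩, hH⟩ := recursion (uni d) Sum.isLeft (uni_bip d) r (by omega) r
  have hH' : ∀ c : W → Fin r, ¬ Free H (uni d) c := by
    intro c hc
    have h1 := hH c hc
    have h2 := card_le_univ (univ.image c)
    rw [Fintype.card_fin] at h2
    omega
  obtain ⟨U, _, K, hK1, hK2⟩ := exists_odd_girth g (W → Fin r)
  refine ⟨W × U, inferInstance, tens H K, tens_odd H K g hK1, ⟨fun x => p x.1,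
    fun x y h => hp _ _ h.1⟩, ?_⟩
  intro c
  have h1 := tens_free H K (uni d) Sum.isLeft (uni_bip d) r hH' hK2 c
  rw [Free] at h1
  push Not at h1
  obtain ⟨i, hi⟩ := h1
  obtain ⟨e⟩ := hi
  refine ⟨i, fun V _ G hG hV => ?_⟩
  obtain ⟨e'⟩ := uni_embed G hG d hV
  exact ⟨e'.trans e⟩

end Pool.Agent.Y387.CR
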