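import Mathlib

/-!
Triangle-free graphs of chromatic number `r + 1` such that every partition into `r` classes has a
class that contains a given bipartite graph as an induced subgraph.

The graph for `j + 1` colours consists of `N` disjoint copies of the graph `H` for `j` colours
and of an independent set of new vertices, one for every choice of at most one neighbour in each
copy.
-/

set_option autoImplicit false

namespace Pool.Agent.Y387.CR

open Finset

/-- no colour class contains an induced copy of `F` -/
def Free {W U κ : Type*} (H : SimpleGraph W) (F : SimpleGraph U) (c : W → κ) : Prop :=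
  ∀ i : κ, IsEmpty (F ↪g H.induce {v | c v = i})

theorem exists_large (r d w : ℕ) (hw : 1 ≤ w) :
    ∃ N : ℕ, r * (w ^ N * ∑ k ∈ range d, N.choose k) < (w + 1) ^ N := by
  have hw' : (0 : ℝ) < w := by exact_mod_cast hw
  have hq : (1 : ℝ) < (w + 1) / w := by
    rw [one_lt_div hw']; linarith
  have h := tendsto_pow_const_div_const_pow_of_one_lt d hq
  have hpos : (0 : ℝ) < 1 / ((r : ℝ) * d + 1) := by positivity
  have hev := (h.eventually (gt_mem_nhds hpos)).and (Filter.eventually_ge_atTop 1)
  obtain ⟨N, hN, hN1⟩ := hev.exists
  refine ⟨N, ?_⟩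
  have h2 : (0 : ℝ) < (((w : ℝ) + 1) / w) ^ N := by positivity
  rw [div_lt_div_iff₀ h2 (by positivity), one_mul, div_pow, lt_div_iff₀ (by positivity)] at hN
  have h3 : ∑ k ∈ range d, N.choose k ≤ d * N ^ d := by
    calc ∑ k ∈ range d, N.choose k ≤ ∑ _k ∈ range d, N ^ d := by
          refine sum_le_sum fun k hk => ?_
          exact (Nat.choose_le_pow N k).trans
            (Nat.pow_le_pow_right hN1 (mem_range.1 hk).le)
      _ = d * N ^ d := by simp
  have h4 : r * (w ^ N * (d * N ^ d)) < (w + 1) ^ N := by
    have h5 : ((r * (w ^ N * (d * N ^ d)) : ℕ) : ℝ) < (((w + 1) ^ N : ℕ) : ℝ) := by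
      push_cast
      have h6 : (0 : ℝ) ≤ (N : ℝ) ^ d * (w : ℝ) ^ N := by positivity
      nlinarith
    exact_mod_cast h5
  exact lt_of_le_of_lt (Nat.mul_le_mul_left r (Nat.mul_le_mul_left _ h3)) h4

theorem exists_shatter {N d : ℕ} (T : Finset (Finset (Fin N)))
    (h : ∑ k ∈ range d, N.choose k < T.card) : ∃ s, d ≤ s.card ∧ T.Shatters s := by
  classical
  by_contra hcon
  push Not at hcon
  have h5 : T.card ≤ T.shatterer.card := card_le_card_shatterer T
  have h6 : T.shatterer ⊆ (range d).biUnion (fun k => (univ : Finset (Fin N)).powersetCard k) := by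
    intro s hs
    rw [mem_shatterer] at hs
    have hcard : s.card < d := by
      by_contra hle
      exact hcon s (not_lt.1 hle) hs
    rw [mem_biUnion]
    exact ⟨s.card, mem_range.2 hcard, mem_powersetCard.2 ⟨subset_univ _, rfl⟩⟩
  have h7 : T.shatterer.card ≤ ∑ k ∈ range d, N.choose k := by
    refine (card_le_card h6).trans (card_biUnion_le.trans ?_)
    simp only [card_powersetCard, card_univ, Fintype.card_fin]
    exact le_rfl
  omega

/-- `N` copies of `H` and one new vertex for every choice of at most one vertex in each copy -/
def stepG {W : Type} (H : SimpleGraph W) (N : ℕ) :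
    SimpleGraph ((W × Fin N) ⊕ (Fin N → Option W)) where
  Adj a b := match a, b with
    | Sum.inl u, Sum.inl v => u.2 = v.2 ∧ H.Adj u.1 v.1
    | Sum.inl u, Sum.inr S => S u.2 = some u.1
    | Sum.inr S, Sum.inl u => S u.2 = some u.1
    | Sum.inr _, Sum.inr _ => False
  symm := ⟨by
    rintro (u | S) (v | S') h
    · exact ⟨h.1.symm, h.2.symm⟩
    · exact h
    · exact h
    · exact h⟩
  loopless := ⟨by
    rintro (u | S) h
    · exact H.loopless.irrefl u.1 h.2
    · exact h⟩

/-- the copies met by the new vertex `S` in the vertices `a k` -/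
def trace {W : Type} [DecidableEq W] {N : ℕ} (a : Fin N → W) (S : Fin N → Option W) :
    Finset (Fin N) :=
  univ.filter (fun k => S k = some (a k))

theorem trace_fiber {W : Type} [Fintype W] [DecidableEq W] {N : ℕ} (a : Fin N → W)
    (A : Finset (Fin N → Option W)) (t : Finset (Fin N)) :
    (A.filter (fun S => trace a S = t)).card ≤ Fintype.card W ^ N := by
  have : Fintype.card W ^ N = (univ : Finset (Fin N → W)).card := by
    rw [card_univ, Fintype.card_fun, Fintype.card_fin]
  rw [this]
  refine card_le_card_of_injOn (fun S k => (S k).getD (a k)) (fun _ _ => mem_coe.2 (mem_univ _)) ?_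
  intro S hS S' hS' h
  rw [mem_coe, mem_filter] at hS hS'
  funext k
  have h1 : (S k).getD (a k) = (S' k).getD (a k) := congrFun h k
  have h2 : S k = some (a k) ↔ S' k = some (a k) := by
    have e1 : k ∈ trace a S ↔ k ∈ trace a S' := by rw [hS.2, hS'.2]
    simpa [trace] using e1
  rcases hx : S k with _ | u <;> rcases hy : S' k with _ | v
  · rfl
  · rw [hx, hy] at h1 h2
    simp only [Option.getD_none, Option.getD_some] at h1
    subst h1
    simp at h2
  · rw [hx, hy] at h1 h2
    simp only [Option.getD_none, Option.getD_some] at h1
    subst h1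
    simp at h2
  · rw [hx, hy] at h1
    simp only [Option.getD_some] at h1
    rw [h1]

/-- The main recursion. -/
theorem recursion {V : Type*} [Fintype V] (G : SimpleGraph V) (κ : V → Bool)
    (hκ : ∀ u v, G.Adj u v → κ u ≠ κ v) (r : ℕ) (hr : 1 ≤ r) (j : ℕ) :
    ∃ (W : Type) (_ : Fintype W) (H : SimpleGraph W), Nonempty W ∧
      (∀ u v w, H.Adj u v → H.Adj v w → H.Adj w u → False) ∧
      (∃ c : W → Fin (j + 1), ∀ u v, H.Adj u v → c u ≠ c v) ∧
      ∀ c : W → Fin r, Free H G c → j + 1 ≤ (univ.image c).card := by
  classical
  induction j with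
  | zero =>
    refine ⟨Fin 1, inferInstance, ⊥, ⟨0⟩, fun u v w h => h.elim,
      ⟨fun _ => 0, fun u v h => h.elim⟩, ?_⟩
    intro c _
    rw [zero_add, Nat.one_le_iff_ne_zero, Finset.card_ne_zero]
    exact univ_nonempty.image c
  | succ j ih =>
    obtain ⟨W, _, H, ⟨w₀⟩, htri, ⟨p, hp⟩, hH⟩ := ih
    have hw : 1 ≤ Fintype.card W := Fintype.card_pos_iff.2 ⟨w₀⟩
    obtain ⟨N, hN⟩ := exists_large r (2 * Fintype.card V) (Fintype.card W) hw
    refine ⟨(W × Fin N) ⊕ (Fin N → Option W), inferInstance, stepG H N,
      ⟨Sum.inr (fun _ => none)⟩, ?_, ?_, ?_⟩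
    · have key : ∀ (u v : W × Fin N) (S : Fin N → Option W),
          (stepG H N).Adj (Sum.inl u) (Sum.inl v) → S u.2 = some u.1 → S v.2 = some v.1 →
            False := by
        intro u v S h1 h2 h3
        have h4 : u.2 = v.2 := h1.1
        rw [h4, h3] at h2
        have h5 : v.1 = u.1 := Option.some.inj h2
        exact H.loopless.irrefl u.1 (h5 ▸ h1.2)
      rintro (u | S) (v | T) (w | U) h1 h2 h3
      · exact htri u.1 v.1 w.1 h1.2 h2.2 h3.2
      · exact key u v U h1 h3 h2
      · exact key w u T h3 h2 h1
      · exact h2
      · exact key v w S h2 h1 h3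
      · exact h3
      · exact h1
      · exact h1
    · refine ⟨Sum.elim (fun w => (p w.1).castSucc) (fun _ => Fin.last _), ?_⟩
      rintro (u | S) (v | S') h
      · have := hp u.1 v.1 h.2
        simp only [Sum.elim_inl, ne_eq, Fin.castSucc_inj]
        exact this
      · simp only [Sum.elim_inl, Sum.elim_inr, ne_eq]
        exact (Fin.castSucc_lt_last _).ne
      · simp only [Sum.elim_inl, Sum.elim_inr, ne_eq]
        exact (Fin.castSucc_lt_last _).ne'
      · exact h.elim
    · intro c hc
      by_contra hlt
      push Not at hlt
      have hcW : ∀ k, Free H G (fun w => c (Sum.inl (w, k))) := by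
        intro k i
        refine ⟨fun f => (hc i).false ⟨⟨fun v => ⟨Sum.inl ((f v).1, k), (f v).2⟩, ?_⟩, ?_⟩⟩
        · intro a b hab
          have h1 : (Sum.inl ((f a).1, k) : (W × Fin N) ⊕ (Fin N → Option W)) =
              Sum.inl ((f b).1, k) := by
            simpa using hab
          have h2 := congrArg Prod.fst (Sum.inl_injective h1)
          exact f.injective (Subtype.ext h2)
        · intro a b
          constructor
          · intro h
            exact f.map_adj_iff.1 (show (H.induce _).Adj (f a) (f b) from h.2)
          · intro h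
            exact ⟨rfl, f.map_adj_iff.2 h⟩
      -- the majority colour among the new vertices
      have : ∃ i ∈ (univ : Finset (Fin r)), (Fintype.card W + 1) ^ N ≤
          r * (univ.filter (fun S : Fin N → Option W => c (Sum.inr S) = i)).card := by
        by_contra hcon
        push Not at hcon
        have hsum : ∑ i : Fin r, (univ.filter (fun S : Fin N → Option W => c (Sum.inr S) = i)).card
            = (Fintype.card W + 1) ^ N := by
          rw [← card_eq_sum_card_fiberwise (f := fun S : Fin N → Option W => c (Sum.inr S))
            (fun _ _ => mem_univ _)]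
          simp
        have hlt : ∑ i : Fin r,
            r * (univ.filter (fun S : Fin N → Option W => c (Sum.inr S) = i)).card
            < ∑ _i : Fin r, (Fintype.card W + 1) ^ N := by
          refine sum_lt_sum_of_nonempty ⟨⟨0, hr⟩, mem_univ _⟩ fun i hi => hcon i hi
        rw [← mul_sum, hsum] at hlt
        simp at hlt
      obtain ⟨i, _, hi⟩ := this
      set 𝒜 : Finset (Fin N → Option W) :=
        univ.filter (fun S : Fin N → Option W => c (Sum.inr S) = i) with h𝒜
      -- every copy contains a vertex of this colour
      have ha : ∀ k, ∃ w, c (Sum.inl (w, k)) = i := by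
        intro k
        have h1 := hH _ (hcW k)
        have h2 : (univ : Finset W).image (fun w => c (Sum.inl (w, k))) ⊆ univ.image c := by
          intro x hx
          rw [mem_image] at hx ⊢
          obtain ⟨w, _, rfl⟩ := hx
          exact ⟨_, mem_univ _, rfl⟩
        have h3 := Finset.eq_of_subset_of_card_le h2 (by omega)
        have h4 : 0 < 𝒜.card := by
          rcases Nat.eq_zero_or_pos 𝒜.card with h0 | h0
          · rw [h0, Nat.mul_zero] at hi
            have : 0 < (Fintype.card W + 1) ^ N := pow_pos (by omega) _
            omega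
          · exact h0
        obtain ⟨S, hS⟩ := Finset.card_pos.1 h4
        have h5 : i ∈ univ.image c := mem_image.2 ⟨_, mem_univ _, (mem_filter.1 hS).2⟩
        rw [← h3, mem_image] at h5
        obtain ⟨w, _, hw'⟩ := h5
        exact ⟨w, hw'⟩
      choose a ha using ha
      -- a large shattered set of copies
      have hT : ∑ k ∈ range (2 * Fintype.card V), N.choose k < (𝒜.image (trace a)).card := by
        by_contra hle
        push Not at hle
        have h1 : 𝒜.card ≤ Fintype.card W ^ N * (𝒜.image (trace a)).card :=
          card_le_mul_card_image 𝒜 _ (fun t _ => trace_fiber a 𝒜 t)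
        have h2 : r * 𝒜.card ≤ r * (Fintype.card W ^ N *
            ∑ k ∈ range (2 * Fintype.card V), N.choose k) :=
          Nat.mul_le_mul_left r (h1.trans (Nat.mul_le_mul_left _ hle))
        omega
      obtain ⟨s, hsd, hsh⟩ := exists_shatter _ hT
      have hcardle : Fintype.card (V ⊕ V) ≤ Fintype.card s := by
        rw [Fintype.card_sum, Fintype.card_coe]
        omega
      obtain ⟨φ⟩ := Function.Embedding.nonempty_of_card_le hcardle
      -- new vertices representing the vertices of the second side
      have hS : ∀ y : V, ∃ S ∈ 𝒜, s ∩ trace a S =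
          (univ.filter (fun x : V => G.Adj x y)).image (fun x => (φ (Sum.inl x) : Fin N))
            ∪ {(φ (Sum.inr y) : Fin N)} := by
        intro y
        obtain ⟨u, hu, hut⟩ := hsh (t :=
          (univ.filter (fun x : V => G.Adj x y)).image (fun x => (φ (Sum.inl x) : Fin N))
            ∪ {(φ (Sum.inr y) : Fin N)}) (by
          intro w hw
          rw [mem_union, mem_image, mem_singleton] at hw
          rcases hw with ⟨x, _, rfl⟩ | rfl
          · exact (φ (Sum.inl x)).2
          · exact (φ (Sum.inr y)).2)
        rw [mem_image] at hu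
        obtain ⟨S, hS, rfl⟩ := hu
        exact ⟨S, hS, hut⟩
      choose S hS𝒜 hSs using hS
      have hmem : ∀ x y : V, (φ (Sum.inl x) : Fin N) ∈ trace a (S y) ↔ G.Adj x y := by
        intro x y
        have e1 : (φ (Sum.inl x) : Fin N) ∈ trace a (S y) ↔
            (φ (Sum.inl x) : Fin N) ∈ s ∩ trace a (S y) := by
          rw [mem_inter]
          exact ⟨fun h => ⟨(φ (Sum.inl x)).2, h⟩, fun h => h.2⟩
        rw [e1, hSs y, mem_union, mem_image, mem_singleton]
        constructor
        · rintro (⟨x', hx', he⟩ | he)
          · have := φ.injective (Subtype.ext he)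
            rw [Sum.inl.injEq] at this
            subst this
            exact (mem_filter.1 hx').2
          · have := φ.injective (Subtype.ext he)
            simp at this
        · intro h
          exact Or.inl ⟨x, mem_filter.2 ⟨mem_univ _, h⟩, rfl⟩
      have hmem2 : ∀ y y' : V, (φ (Sum.inr y) : Fin N) ∈ trace a (S y') → y = y' := by
        intro y y' h
        have e1 : (φ (Sum.inr y) : Fin N) ∈ s ∩ trace a (S y') :=
          mem_inter.2 ⟨(φ (Sum.inr y)).2, h⟩
        rw [hSs y', mem_union, mem_image, mem_singleton] at e1
        rcases e1 with ⟨x', _, he⟩ | he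
        · have := φ.injective (Subtype.ext he)
          simp at this
        · have := φ.injective (Subtype.ext he)
          simpa using this
      have hmem3 : ∀ y : V, (φ (Sum.inr y) : Fin N) ∈ trace a (S y) := by
        intro y
        have : (φ (Sum.inr y) : Fin N) ∈ s ∩ trace a (S y) := by
          rw [hSs y]; simp
        exact (mem_inter.1 this).2
      have hSinj : Function.Injective S := by
        intro y y' h
        exact hmem2 y y' (h ▸ hmem3 y)
      let g : V → (W × Fin N) ⊕ (Fin N → Option W) := fun v =>
        if κ v then Sum.inl (a (φ (Sum.inl v) : Fin N), (φ (Sum.inl v) : Fin N)) else Sum.inr (S v)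
      have hgc : ∀ v, c (g v) = i := by
        intro v
        by_cases hv : κ v
        · simp only [g, hv, if_true]
          exact ha _
        · simp only [g, hv]
          exact (mem_filter.1 (hS𝒜 v)).2
      have hginj : Function.Injective g := by
        intro x y hxy
        by_cases hx : κ x <;> by_cases hy : κ y <;> simp only [g, hx, hy, if_true] at hxy
        · have h1 := congrArg Prod.snd (Sum.inl_injective hxy)
          have := φ.injective (Subtype.ext h1)
          simpa using this
        · simp at hxy
        · simp at hxy
        · exact hSinj (by simpa using hxy)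
      have htr : ∀ (k : Fin N) (y : V), S y k = some (a k) ↔ k ∈ trace a (S y) := by
        intro k y
        simp [trace]
      have hgadj : ∀ x y, (stepG H N).Adj (g x) (g y) ↔ G.Adj x y := by
        intro x y
        by_cases hx : κ x <;> by_cases hy : κ y <;> simp only [g, hx, hy, if_true]
        · constructor
          · intro h
            exfalso
            have h1 : (φ (Sum.inl x) : Fin N) = (φ (Sum.inl y) : Fin N) := h.1
            have h2 : H.Adj (a (φ (Sum.inl x) : Fin N)) (a (φ (Sum.inl y) : Fin N)) := h.2
            rw [h1] at h2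
            exact H.loopless.irrefl _ h2
          · intro h
            exact (hκ x y h (by rw [hx, hy])).elim
        · exact (htr _ y).trans (hmem x y)
        · exact ((htr _ x).trans (hmem y x)).trans (G.adj_comm y x)
        · constructor
          · intro h
            exact h.elim
          · intro h
            refine (hκ x y h ?_).elim
            rw [Bool.not_eq_true] at hx hy
            rw [hx, hy]
      refine (hc i).false ⟨⟨fun v => ⟨g v, hgc v⟩, ?_⟩, ?_⟩
      · intro x y hxy
        exact hginj (by simpa using hxy)
      · intro x y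
        exact hgadj x y

end Pool.Agent.Y387.CR
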